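import Mathlib

/-!
Two algebras with one generator each, in the variety of all algebras of a countable signature of
unary operations, that realize the same complete types of finite tuples but are not isomorphic.
-/

namespace Pool.Agent.Results.MP_c850b7_lc.TwoGenerated

open FirstOrder FirstOrder.Language

/-- `A` satisfies the set `E` of identities (pairs of terms in variables indexed by `ℕ`). -/
def Satisfies (L : FirstOrder.Language.{0, 0}) (E : Set (L.Term ℕ × L.Term ℕ)) (A : Type) [L.Structure A] :
    Prop :=
  ∀ e ∈ E, ∀ v : ℕ → A, e.1.realize v = e.2.realize v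

/-- The complete type (over the empty set) of the tuple `a` in `A`: the set of all first-order
formulas in `n` free variables that hold in `A` at `a`. -/
def typeOf (L : FirstOrder.Language.{0, 0}) (A : Type) [L.Structure A] {n : ℕ} (a : Fin n → A) :
    Set (L.Formula (Fin n)) :=
  {φ | φ.Realize a}

/-- The set of all `n`-types realized in `A`. -/
def realizedTypes (L : FirstOrder.Language.{0, 0}) (A : Type) [L.Structure A] (n : ℕ) :
    Set (Set (L.Formula (Fin n))) :=
  Set.range (fun a : Fin n → A => typeOf L A a)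

/-- `A` and `B` are isotypic: they realize the same types of finite tuples. -/
def Isotypic (L : FirstOrder.Language.{0, 0}) (A B : Type) [L.Structure A] [L.Structure B] : Prop :=
  ∀ n : ℕ, realizedTypes L A n = realizedTypes L B n

/-- Operation symbols: `l`, `u` and `s i` for every natural number `i`, all of them unary. -/
inductive Op : ℕ → Type
  | l : Op 1
  | u : Op 1
  | s : ℕ → Op 1

/-- The signature. -/
def Lan : FirstOrder.Language.{0, 0} := ⟨Op, fun _ => Empty⟩

/-- The carrier of both algebras: `(w, j)` stands for `s w (l ^ j g)`. -/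
def Car (_ : Bool) : Type := List ℕ × ℕ

def lf : List ℕ × ℕ → List ℕ × ℕ
  | ([], j) => ([], j + 1)
  | (_ :: w, j) => (w, j)

def sf (i : ℕ) (x : List ℕ × ℕ) : List ℕ × ℕ := (i :: x.1, x.2)

/-- The colour of an element. -/
def col (e : Bool) (x : List ℕ × ℕ) : Bool := xor e (decide ((x.1.length + x.2) % 2 = 1))

def uf (e : Bool) (x : List ℕ × ℕ) : List ℕ × ℕ := if col e x = false then x else lf x

instance str (e : Bool) : Lan.Structure (Car e) where
  funMap := fun {_} f => match f with
    | Op.l => fun v => lf (v 0)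
    | Op.u => fun v => uf e (v 0)
    | Op.s i => fun v => sf i (v 0)
  RelMap := fun {_} r => r.elim

/-- `l` at a term. -/
def symL : Lan.Functions 1 := Op.l
def symU : Lan.Functions 1 := Op.u
def symS (i : ℕ) : Lan.Functions 1 := Op.s i

theorem funMap_l (e : Bool) (v : Fin 1 → Car e) :
    Structure.funMap symL v = lf (v 0) := rfl
theorem funMap_u (e : Bool) (v : Fin 1 → Car e) :
    Structure.funMap symU v = uf e (v 0) := rfl
theorem funMap_s (e : Bool) (i : ℕ) (v : Fin 1 → Car e) :
    Structure.funMap (symS i) v = sf i (v 0) := rfl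

/-- The shift `s w (l ^ j g) ↦ s w (l ^ (j + 1) g)`. -/
def sh (x : List ℕ × ℕ) : List ℕ × ℕ := (x.1, x.2 + 1)

theorem lf_sh (x : List ℕ × ℕ) : lf (sh x) = sh (lf x) := by
  rcases x with ⟨_ | ⟨i, w⟩, j⟩ <;> rfl

theorem sf_sh (i : ℕ) (x : List ℕ × ℕ) : sf i (sh x) = sh (sf i x) := rfl

theorem col_sh (e : Bool) (x : List ℕ × ℕ) : col e (sh x) = col (!e) x := by
  rcases x with ⟨w, j⟩
  simp only [col, sh]
  have h : (w.length + (j + 1)) % 2 = 1 ↔ ¬ ((w.length + j) % 2 = 1) := by omega
  by_cases h' : (w.length + j) % 2 = 1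
  · have : ¬ ((w.length + (j + 1)) % 2 = 1) := by rw [h]; simpa using h'
    simp [h', this]
  · have : ((w.length + (j + 1)) % 2 = 1) := by rw [h]; exact h'
    simp only [h', this, decide_true, decide_false]
    cases e <;> rfl

theorem uf_sh (e : Bool) (x : List ℕ × ℕ) : uf e (sh x) = sh (uf (!e) x) := by
  unfold uf
  rw [col_sh]
  split
  · rfl
  · exact lf_sh x

theorem sh_injective : Function.Injective sh := by
  rintro ⟨w, j⟩ ⟨w', j'⟩ h
  simp only [sh, Prod.mk.injEq, Nat.add_right_cancel_iff] at h
  exact Prod.ext h.1 h.2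

/-- The shift as an embedding. -/
def emb (e : Bool) : Car (!e) ↪[Lan] Car e where
  toFun := sh
  inj' := sh_injective
  map_fun' := by
    intro n f v
    cases f with
    | l => exact (lf_sh (v 0)).symm
    | u => exact (uf_sh e (v 0)).symm
    | s i => exact (sf_sh i (v 0)).symm
  map_rel' := fun {_} r => r.elim

/-- The involution exchanging `s w g` and `s w (s m (l g))`. -/
def sw (m : ℕ) (x : List ℕ × ℕ) : List ℕ × ℕ :=
  if x.2 = 0 then (x.1 ++ [m], 1)
  else if x.2 = 1 ∧ x.1.getLast? = some m then (x.1.dropLast, 0)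
  else x

theorem sw_zero (m : ℕ) (w : List ℕ) : sw m (w, 0) = (w ++ [m], 1) := by simp [sw]

theorem sw_one (m : ℕ) (w : List ℕ) : sw m (w ++ [m], 1) = (w, 0) := by
  simp [sw]

theorem sw_other (m : ℕ) (x : List ℕ × ℕ) (h0 : x.2 ≠ 0)
    (h1 : ¬ (x.2 = 1 ∧ x.1.getLast? = some m)) : sw m x = x := by
  unfold sw
  rw [if_neg h0, if_neg h1]

/-- The three cases. -/
theorem sw_cases (m : ℕ) (x : List ℕ × ℕ) :
    (∃ w, x = (w, 0)) ∨ (∃ w, x = (w ++ [m], 1)) ∨
      (x.2 ≠ 0 ∧ ¬ (x.2 = 1 ∧ x.1.getLast? = some m)) := by
  rcases x with ⟨w, j⟩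
  by_cases h0 : j = 0
  · left; exact ⟨w, by rw [h0]⟩
  by_cases h1 : j = 1 ∧ w.getLast? = some m
  · right; left
    obtain ⟨h1, h2⟩ := h1
    refine ⟨w.dropLast, ?_⟩
    rw [h1]
    rw [List.getLast?_eq_some_iff] at h2
    obtain ⟨ys, rfl⟩ := h2
    simp
  · right; right; exact ⟨h0, h1⟩

theorem sw_sw (m : ℕ) (x : List ℕ × ℕ) : sw m (sw m x) = x := by
  rcases sw_cases m x with ⟨w, rfl⟩ | ⟨w, rfl⟩ | ⟨h0, h1⟩
  · rw [sw_zero, sw_one]
  · rw [sw_one, sw_zero]
  · rw [sw_other m x h0 h1, sw_other m x h0 h1]

theorem sw_lf (m : ℕ) (x : List ℕ × ℕ) : sw m (lf x) = lf (sw m x) := by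
  rcases sw_cases m x with ⟨w, rfl⟩ | ⟨w, rfl⟩ | ⟨h0, h1⟩
  · rw [sw_zero]
    rcases w with _ | ⟨i, w⟩
    · change sw m ([], 1) = ([], 1)
      exact sw_other m _ (by simp) (by simp)
    · change sw m (w, 0) = (w ++ [m], 1)
      exact sw_zero m w
  · rw [sw_one]
    rcases w with _ | ⟨i, w⟩
    · change sw m ([], 1) = ([], 1)
      exact sw_other m _ (by simp) (by simp)
    · change sw m (w ++ [m], 1) = (w, 0)
      exact sw_one m w
  · rw [sw_other m x h0 h1]
    rcases x with ⟨_ | ⟨i, w⟩, j⟩
    · change sw m ([], j + 1) = ([], j + 1)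
      refine sw_other m _ (by simp) (by simp)
    · change sw m (w, j) = (w, j)
      refine sw_other m _ h0 ?_
      rintro ⟨hj, hw⟩
      apply h1
      refine ⟨hj, ?_⟩
      change (i :: w).getLast? = some m
      have hj' : w.getLast? = some m := hw
      rw [List.getLast?_cons, hj']
      rfl

theorem sw_sf (m i : ℕ) (him : i ≠ m) (x : List ℕ × ℕ) : sw m (sf i x) = sf i (sw m x) := by
  rcases sw_cases m x with ⟨w, rfl⟩ | ⟨w, rfl⟩ | ⟨h0, h1⟩
  · rw [sw_zero]
    exact sw_zero m (i :: w)
  · rw [sw_one]
    exact sw_one m (i :: w)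
  · rw [sw_other m x h0 h1]
    refine sw_other m _ h0 ?_
    rintro ⟨hj, hw⟩
    apply h1
    refine ⟨hj, ?_⟩
    rcases x with ⟨_ | ⟨k, w⟩, j⟩
    · exfalso
      change [i].getLast? = some m at hw
      simp at hw
      exact him hw
    · change (i :: k :: w).getLast? = some m at hw
      change (k :: w).getLast? = some m
      simpa using hw

theorem col_sw (e : Bool) (m : ℕ) (x : List ℕ × ℕ) : col e (sw m x) = col e x := by
  rcases sw_cases m x with ⟨w, rfl⟩ | ⟨w, rfl⟩ | ⟨h0, h1⟩
  · rw [sw_zero]
    have : (w.length + 1 + 1) % 2 = (w.length + 0) % 2 := by omega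
    simp only [col, List.length_append, List.length_cons, List.length_nil]
    simp only [Nat.zero_add]
    rw [this]
  · rw [sw_one]
    have : (w.length + 0) % 2 = (w.length + 1 + 1) % 2 := by omega
    simp only [col, List.length_append, List.length_cons, List.length_nil]
    simp only [Nat.zero_add]
    rw [this]
  · rw [sw_other m x h0 h1]

theorem sw_uf (e : Bool) (m : ℕ) (x : List ℕ × ℕ) : sw m (uf e x) = uf e (sw m x) := by
  unfold uf
  rw [col_sw]
  split
  · rfl
  · exact sw_lf m x

/-- The involution on the carrier. -/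
def swC (e : Bool) (m : ℕ) : Car e → Car e := sw m

theorem swC_swC (e : Bool) (m : ℕ) (x : Car e) : swC e m (swC e m x) = x := sw_sw m x

/-- The three operations on the carrier. -/
def lC (e : Bool) : Car e → Car e := lf
def uC (e : Bool) : Car e → Car e := uf e
def sC (e : Bool) (i : ℕ) : Car e → Car e := sf i

/-- Every term commutes with the involutions for all large `m`. -/
theorem term_sw (e : Bool) {α : Type} (t : Lan.Term α) :
    ∃ N : ℕ, ∀ m, N ≤ m → ∀ v : α → Car e,
      t.realize (swC e m ∘ v) = swC e m (t.realize v) := by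
  induction t with
  | var a => exact ⟨0, fun m _ v => rfl⟩
  | func f ts ih =>
    cases f with
    | l =>
      obtain ⟨N, hN⟩ := ih 0
      refine ⟨N, fun m hm v => ?_⟩
      change lC e ((ts 0).realize _) = swC e m (lC e ((ts 0).realize v))
      rw [hN m hm v]
      exact (sw_lf m _).symm
    | u =>
      obtain ⟨N, hN⟩ := ih 0
      refine ⟨N, fun m hm v => ?_⟩
      change uC e ((ts 0).realize _) = swC e m (uC e ((ts 0).realize v))
      rw [hN m hm v]
      exact (sw_uf e m _).symm
    | s i =>
      obtain ⟨N, hN⟩ := ih 0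
      refine ⟨max N (i + 1), fun m hm v => ?_⟩
      change sC e i ((ts 0).realize _) = swC e m (sC e i ((ts 0).realize v))
      rw [hN m (le_trans (le_max_left _ _) hm) v]
      have : i ≠ m := by
        have := le_trans (le_max_right N (i + 1)) hm
        omega
      exact (sw_sf m i this _).symm

/-- Every formula is invariant under the involutions for all large `m`. -/
theorem formula_sw (e : Bool) {α : Type} {n : ℕ} (φ : Lan.BoundedFormula α n) :
    ∃ N : ℕ, ∀ m, N ≤ m → ∀ (v : α → Car e) (xs : Fin n → Car e),
      φ.Realize (swC e m ∘ v) (swC e m ∘ xs) ↔ φ.Realize v xs := by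
  induction φ with
  | falsum => exact ⟨0, fun m _ v xs => Iff.rfl⟩
  | equal t₁ t₂ =>
    obtain ⟨N₁, h₁⟩ := term_sw e t₁
    obtain ⟨N₂, h₂⟩ := term_sw e t₂
    refine ⟨max N₁ N₂, fun m hm v xs => ?_⟩
    have e1 := h₁ m (le_trans (le_max_left _ _) hm) (Sum.elim v xs)
    have e2 := h₂ m (le_trans (le_max_right _ _) hm) (Sum.elim v xs)
    have hs : swC e m ∘ (Sum.elim v xs) = Sum.elim (swC e m ∘ v) (swC e m ∘ xs) := by
      funext a
      rcases a with a | a <;> rfl
    rw [hs] at e1 e2
    change t₁.realize (Sum.elim (swC e m ∘ v) (swC e m ∘ xs)) =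
        t₂.realize (Sum.elim (swC e m ∘ v) (swC e m ∘ xs)) ↔
      t₁.realize (Sum.elim v xs) = t₂.realize (Sum.elim v xs)
    rw [e1, e2]
    constructor
    · intro h
      have := congrArg (swC e m) h
      rw [swC_swC, swC_swC] at this
      exact this
    · intro h
      rw [h]
  | rel R ts => exact R.elim
  | imp φ ψ ih₁ ih₂ =>
    obtain ⟨N₁, h₁⟩ := ih₁
    obtain ⟨N₂, h₂⟩ := ih₂
    refine ⟨max N₁ N₂, fun m hm v xs => ?_⟩
    rw [BoundedFormula.realize_imp, BoundedFormula.realize_imp,
      h₁ m (le_trans (le_max_left _ _) hm), h₂ m (le_trans (le_max_right _ _) hm)]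
  | all φ ih =>
    obtain ⟨N, h⟩ := ih
    refine ⟨N, fun m hm v xs => ?_⟩
    rw [BoundedFormula.realize_all, BoundedFormula.realize_all]
    have hsn : ∀ y : Car e, (Fin.snoc (swC e m ∘ xs) (swC e m y) : Fin _ → Car e) =
        swC e m ∘ (Fin.snoc xs y : Fin _ → Car e) := by
      intro y
      funext k
      refine Fin.lastCases ?_ (fun k => ?_) k
      · rw [Function.comp_apply, Fin.snoc_last, Fin.snoc_last]
      · rw [Function.comp_apply, Fin.snoc_castSucc, Fin.snoc_castSucc, Function.comp_apply]
    constructor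
    · intro H y
      have := H (swC e m y)
      rw [hsn] at this
      exact (h m hm v _).1 this
    · intro H y
      have hz' : swC e m (swC e m y) = y := swC_swC e m y
      rw [← hz', hsn]
      exact (h m hm v _).2 (H _)

/-- A bound for the letters of finitely many words. -/
theorem exists_fresh {n : ℕ} (x : Fin n → List ℕ × ℕ) (N : ℕ) :
    ∃ m, N ≤ m ∧ ∀ k, m ∉ (x k).1 := by
  classical
  let F : Finset ℕ := Finset.univ.biUnion (fun k : Fin n => (x k).1.toFinset)
  obtain ⟨m, hm, hm'⟩ := Set.Infinite.exists_notMem_finset (Set.Ici_infinite N) F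
  refine ⟨m, hm, fun k hk => hm' ?_⟩
  rw [Finset.mem_biUnion]
  exact ⟨k, Finset.mem_univ _, List.mem_toFinset.2 hk⟩

/-- The element of the carrier with given coordinates. -/
def pt (e : Bool) (w : List ℕ) (j : ℕ) : Car e := (w, j)

/-- The shift is an elementary embedding. -/
def elem (e : Bool) : Car (!e) ↪ₑ[Lan] Car e :=
  (emb e).toElementaryEmbedding (by
    intro n φ x a ha
    rcases a with ⟨w, _ | j⟩
    · obtain ⟨N, hN⟩ := formula_sw e φ
      obtain ⟨m, hNm, hm⟩ := exists_fresh x N
      refine ⟨pt (!e) (w ++ [m]) 0, ?_⟩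
      have key := (hN m hNm default (Fin.snoc (emb e ∘ x) (pt e w 0))).2 ha
      have h1 : (swC e m ∘ (default : Empty → Car e)) = default :=
        Subsingleton.elim _ _
      rw [h1] at key
      convert key using 1
      funext k
      refine Fin.lastCases ?_ (fun k => ?_) k
      · rw [Function.comp_apply, Fin.snoc_last, Fin.snoc_last]
        exact (sw_zero m w).symm
      · rw [Function.comp_apply, Fin.snoc_castSucc, Fin.snoc_castSucc]
        refine (sw_other m _ ?_ ?_).symm
        · exact Nat.succ_ne_zero _
        · rintro ⟨_, h⟩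
          apply hm k
          have h' : (x k).1.getLast? = some m := h
          exact List.mem_of_getLast? h'
    · exact ⟨pt (!e) w j, ha⟩)

theorem realizedTypes_subset {A B : Type} [Lan.Structure A] [Lan.Structure B]
    (f : A ↪ₑ[Lan] B) (n : ℕ) : realizedTypes Lan A n ⊆ realizedTypes Lan B n := by
  rintro p ⟨a, rfl⟩
  refine ⟨f ∘ a, ?_⟩
  ext φ
  exact f.map_formula φ a

theorem isotypic : Isotypic Lan (Car false) (Car true) := by
  intro n
  exact Set.Subset.antisymm (realizedTypes_subset (elem true) n)
    (realizedTypes_subset (elem false) n)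

/-- The generator. -/
def gen (e : Bool) : Car e := pt e [] 0

/-- Induction over the algebra. -/
theorem car_induction (e : Bool) (K : Car e → Prop) (h0 : K (gen e))
    (hl : ∀ x, K x → K (lC e x)) (hs : ∀ i x, K x → K (sC e i x)) : ∀ x, K x := by
  rintro ⟨w, j⟩
  induction w with
  | nil =>
    induction j with
    | zero => exact h0
    | succ j ih => exact hl _ ih
  | cons i w ih => exact hs i _ ih

theorem closure_gen (e : Bool) : Substructure.closure Lan {gen e} = ⊤ := by
  rw [eq_top_iff]
  intro x _
  refine car_induction e (fun x => x ∈ Substructure.closure Lan {gen e}) ?_ ?_ ?_ x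
  · exact Substructure.subset_closure (Set.mem_singleton _)
  · intro x hx
    exact Substructure.fun_mem (Substructure.closure Lan {gen e}) symL (fun _ => x)
      (fun _ => hx)
  · intro i x hx
    exact Substructure.fun_mem (Substructure.closure Lan {gen e}) (symS i) (fun _ => x)
      (fun _ => hx)

/-- The word and the exponent of an element. -/
def wd (e : Bool) (x : Car e) : List ℕ := x.1
def ex (e : Bool) (x : Car e) : ℕ := x.2

theorem eq_pt (e : Bool) (x : Car e) : x = pt e (wd e x) (ex e x) := rfl

theorem not_iso : IsEmpty (Car false ≃[Lan] Car true) := by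
  constructor
  intro f
  have hl : ∀ x : Car false, f (lC false x) = lC true (f x) := fun x =>
    f.map_fun symL (fun _ => x)
  have hu : ∀ x : Car false, f (uC false x) = uC true (f x) := fun x =>
    f.map_fun symU (fun _ => x)
  have hs : ∀ i, ∀ x : Car false, f (sC false i x) = sC true i (f x) := fun i x =>
    f.map_fun (symS i) (fun _ => x)
  -- the image of the generator is not a value of any `s i`
  have hnil : wd true (f (gen false)) = [] := by
    by_contra hne
    obtain ⟨i, w, hw⟩ := List.exists_cons_of_ne_nil hne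
    obtain ⟨y, hy⟩ := f.surjective (pt true w (ex true (f (gen false))))
    have h1 : f (sC false i y) = f (gen false) := by
      rw [hs i y, hy, eq_pt true (f (gen false)), hw]
      rfl
    have h2 : sC false i y = gen false := f.injective h1
    have h3 : wd false (sC false i y) = [] := by rw [h2]; rfl
    exact List.cons_ne_nil _ _ h3
  -- the image of the generator has exponent zero
  have hzero : ex true (f (gen false)) = 0 := by
    by_contra hne
    have hall : ∀ x : Car false, ex true (f x) ≠ 0 := by
      refine car_induction false (fun x => ex true (f x) ≠ 0) hne ?_ ?_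
      · intro x hx
        change ex true (f (lC false x)) ≠ 0
        rw [hl x]
        have hx' : ex true (f x) ≠ 0 := hx
        generalize f x = z at hx'
        rcases z with ⟨_ | ⟨i, w⟩, j⟩
        · exact Nat.succ_ne_zero j
        · exact hx'
      · intro i x hx
        change ex true (f (sC false i x)) ≠ 0
        rw [hs i x]
        exact hx
    obtain ⟨y, hy⟩ := f.surjective (gen true)
    apply hall y
    rw [hy]
    rfl
  have hgen : f (gen false) = gen true := by
    rw [eq_pt true (f (gen false)), hnil, hzero]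
    rfl
  have h := hu (gen false)
  have h1 : uC false (gen false) = gen false := rfl
  have h2 : uC true (gen true) = pt true [] 1 := rfl
  rw [h1, hgen, h2] at h
  have h5 : (0 : ℕ) = 1 := congrArg (ex true) h
  exact absurd h5 (by decide)

/-- There are a countable signature with unary operation symbols only and no relation symbols,
a variety (given by a set `E` of identities) and two algebras of the variety, each generated by
one element, that are isotypic (indeed each embeds elementarily in the other) but are not
isomorphic. -/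
theorem result :
    ∃ (L : FirstOrder.Language.{0, 0}) (E : Set (L.Term ℕ × L.Term ℕ)) (A B : Type)
      (_ : L.Structure A) (_ : L.Structure B),
      (∀ n, IsEmpty (L.Relations n)) ∧ (∀ n, Nonempty (L.Functions n) → n = 1) ∧
      Countable (L.Functions 1) ∧
      Satisfies L E A ∧ Satisfies L E B ∧
      (∃ a : A, Substructure.closure L {a} = ⊤) ∧ (∃ b : B, Substructure.closure L {b} = ⊤) ∧
      Nonempty (A ↪ₑ[L] B) ∧ Nonempty (B ↪ₑ[L] A) ∧
      Isotypic L A B ∧ IsEmpty (A ≃[L] B) := by
  refine ⟨Lan, ∅, Car false, Car true, str false, str true, ?_, ?_, ?_, ?_, ?_,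
    ⟨gen false, closure_gen false⟩, ⟨gen true, closure_gen true⟩, ⟨elem true⟩, ⟨elem false⟩,
    isotypic, not_iso⟩
  · intro n
    exact inferInstanceAs (IsEmpty Empty)
  · rintro n ⟨f⟩
    cases f <;> rfl
  · have : Function.Injective (fun f : Op 1 => match f with
        | Op.l => 0
        | Op.u => 1
        | Op.s i => i + 2) := by
      intro f g h
      cases f <;> cases g <;> simp_all
    exact this.countable
  · intro e he
    exact absurd he (Set.notMem_empty e)
  · intro e he
    exact absurd he (Set.notMem_empty e)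

end Pool.Agent.Results.MP_c850b7_lc.TwoGenerated
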